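import Mathlib
import Pool.Agent.helper5.PR.SpecZ

/-!
# Project shl (MP_a2a22c_al): solvable subgroups of large Hirsch length

FINAL: `n ≥ 3`, `G` finitely generated, residually finite, with the same finite quotients as `SL(n, ℤ)`, not
isomorphic to `SL(n, ℤ)`. Then every solvable subgroup of `G` has Hirsch length `≤ (n-1)(n-2)/2 + 1` (if `4 ∣ n`, `n ≥ 12`:
`≤ n(2n-5)/4`).

Module `shl:XX` proves `theorem XX (hYY : YY_stmt) ... : XX_stmt` (the hypotheses are in its row) in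
`Pool/Agent/<seat>/SHL/XX.lean`, `import Pool.Agent.helper73.SHL.Spec`, namespace `Pool.Agent.SHL`, auxiliary
lemmas with the prefix `XX_`. `Z_MAL_stmt`, `TriS`, `InvS`, `resS`, `quoS` (helper17, helper5), `LSPAN_stmt`, `LINT_stmt`,
`LKEY_stmt`, `TRACE_stmt`, `Fam`, `qM`, `MC`, `SLZ`, `QuotLe` (helper48) are in the namespace `Pool.Agent.PR`.

`D` is a division algebra over `ℚ`, central, of dimension `d²`. `V` is a left `D`-module, also a `ℚ`-space
(`IsScalarTower ℚ D V`). `Hi N H` is `h(H) ≥ N` for solvable `H`.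
-/

set_option autoImplicit false

namespace Pool.Agent.SHL

open Matrix Module Pool.Agent.PR

/-- `Hi N H`: there are subgroups `K ⊴ L ≤ H` such that `L / K` has an element of infinite order and `Hi (N - 1) K`.
For a solvable group `H` this says that its Hirsch length is at least `N`. -/
def Hi {G : Type} [Group G] : ℕ → Subgroup G → Prop
  | 0, _ => True
  | N + 1, H => ∃ K L : Subgroup G, K ≤ L ∧ L ≤ H ∧ (∀ l ∈ L, ∀ k ∈ K, l * k * l⁻¹ ∈ K) ∧
      (∃ g ∈ L, ∀ j : ℕ, 0 < j → g ^ j ∉ K) ∧ Hi N K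

/-- **HA** (basic properties of `Hi`). All by induction on `N`. (3): intersect `K`, `L` with `H'`, replace `g` by a power in
`H'` (`H'` has finite relative index in `H`, so some positive power of `g` is in `H'`; `Subgroup.exists_pow_mem_of_relIndex_ne_zero`
or similar). (4): clear. (5): `g ^ j = z ^ m`, `m ≠ 0`; if `x ∈ K`, `x ^ i = z ^ a`, `a ≠ 0`, then `g ^ (j |a|) = z ^ (m |a|)` is a power of
`z ^ a`, up to sign `(z ^ a) ^ m`, so it is in `K`, contradiction; so every element of `K` has finite order, (4) for `K`.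
(6): pull back `K`, `L`. -/
def HA_stmt : Prop := ∀ (G : Type) [Group G],
  (∀ (N : ℕ) (H H' : Subgroup G), H ≤ H' → Hi N H → Hi N H') ∧
  (∀ (N : ℕ) (H : Subgroup G), Hi (N + 1) H → Hi N H) ∧
  (∀ (N : ℕ) (H H' : Subgroup G), H'.relIndex H ≠ 0 → Hi N H → Hi N (H' ⊓ H)) ∧
  (∀ (N : ℕ) (H : Subgroup G), (∀ x ∈ H, ∃ j : ℕ, 0 < j ∧ x ^ j = 1) → Hi N H → N = 0) ∧
  (∀ (N : ℕ) (H : Subgroup G) (z : G), (∀ x ∈ H, ∃ j : ℕ, 0 < j ∧ ∃ m : ℤ, x ^ j = z ^ m) → Hi N H → N ≤ 1) ∧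
  (∀ (G' : Type) [Group G'] (φ : G' →* G), Function.Injective φ → ∀ (N : ℕ) (H : Subgroup G),
    H ≤ φ.range → Hi N H → Hi N (H.comap φ))

/-- **HB** (exact sequences). Induction on `N`. Let `K ⊴ L ≤ H`, `g` be as in `Hi (N + 1) H` and `a`, `b` be given by the
induction hypothesis for `K`. If `φ g ^ k ∈ φ K` for some `k > 0`, `φ (g ^ k) = φ h`, `h ∈ K`, then `x = h⁻¹ g ^ k ∈ L ⊓ ker φ`
has no positive power in `K ⊓ ker φ` (`x ^ j = (an element of K) * g ^ (k j)` as `K` is normal in `L`): `a + 1`. Otherwise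
`φ g` has no positive power in `φ K`: `b + 1`. -/
def HB_stmt : Prop := ∀ (G G' : Type) [Group G] [Group G'] (φ : G →* G') (N : ℕ) (H : Subgroup G), Hi N H →
  ∃ a b : ℕ, a + b = N ∧ Hi a (H ⊓ φ.ker) ∧ Hi b (H.map φ)

/-- **HD** (subgroups of vector spaces). Induction on `N`: let `K ⊴ L ≤ H`, `g` be as in `Hi`. Then `f g ∉ span (f K)`: otherwise
(clear denominators) `j • f g = f k` with `j > 0`, `k ∈ K`, so `f (g ^ j * k⁻¹) = 0`, `(g ^ j * k⁻¹) ^ i = 1`, `i > 0`, and this is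
`g ^ (j i)` times an element of `K`, so `g ^ (j i) ∈ K`. Hence `dim span (f K) < dim span (f L)`. -/
def HD_stmt : Prop := ∀ (G : Type) [Group G] (W : Type) [AddCommGroup W] [Module ℚ W] [FiniteDimensional ℚ W]
  (H : Subgroup G) (f : G → W), (∀ x ∈ H, ∀ y ∈ H, f (x * y) = f x + f y) →
  (∀ x ∈ H, f x = 0 → ∃ j : ℕ, 0 < j ∧ x ^ j = 1) → ∀ N : ℕ, Hi N H →
  N ≤ finrank ℚ (Submodule.span ℚ (f '' (H : Set G)))

/-- **LIN** (`F ⊗ D → R` is injective for a central division algebra `D`). Proof. Let `∑ c_i φ(v_i) = 0` be a nontrivial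
relation over `F`. Write it as `∑_{i ∈ s} c_i φ(a_i) = 0` with `c_i ∈ F` linearly independent over `ℚ`, all `a_i ∈ D` nonzero, `s` not
empty (choose a `ℚ`-basis of the span of the `c_i`; the new `a_i` are rational combinations of the `v_i`, not all `0` since
the `v_i` are independent), and choose such a relation with the number of terms minimal. Multiply by `φ(a_1)⁻¹`: `a_1 = 1`.
For `b ≠ 0` in `D` conjugate by `φ(b)` and subtract: `∑ c_i φ(b a_i b⁻¹ - a_i) = 0` has fewer terms, so `b a_i = a_i b` for all `i`, `b`: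
`a_i ∈ ℚ` and `∑ c_i a_i = 0` in `F` (`R` nontrivial, so `F → R` is injective), a contradiction. -/
def LIN_stmt : Prop := ∀ (D : Type) [DivisionRing D] [Algebra ℚ D], Algebra.IsCentral ℚ D →
  ∀ (F : Type) [Field F] [CharZero F] (R : Type) [Ring R] [Nontrivial R] [Algebra F R] (φ : D →+* R)
    (ι : Type) (v : ι → D), LinearIndependent ℚ v → LinearIndependent F (fun i => φ (v i))

/-- **DEG** (from LIN; the degree of a commutative subfield). `E` is a field of degree `f` over `ℚ`; `L` is an `E`-space with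
`f * dim_E L = dim_ℚ L = d² e`, `e = dim_D L`. LIN for `F = E`, `R = End_E(L)`, `φ` = the action of `D` (which is `E`-linear):
`d² ≤ (dim_E L)²`, so `d f ≤ f dim_E L = d² e`. -/
def DEG_stmt : Prop := ∀ (D : Type) [DivisionRing D] [Algebra ℚ D] [FiniteDimensional ℚ D] (d : ℕ),
  Algebra.IsCentral ℚ D → finrank ℚ D = d * d → ∀ (L : Type) [AddCommGroup L] [Module D L] [Module ℚ L]
    [IsScalarTower ℚ D L] [Module.Finite D L] [Nontrivial L] (E : Subalgebra ℚ (Module.End D L)),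
  (∀ x ∈ E, ∀ y ∈ E, x * y = y * x) → (∀ x ∈ E, x ≠ 0 → Function.Injective x) →
  finrank ℚ E ≤ d * finrank D L

/-- **UNT** (from HD; Dirichlet's unit theorem). The elements of `H` and their inverses are integral, so `H` embeds in
`(𝓞 K)ˣ`, and `(𝓞 K)ˣ` modulo torsion is `ℤ ^ r` with `r = r₁ + r₂ - 1 ≤ [K : ℚ] - 1` (`NumberField.Units.basisModTorsion`,
`NumberField.Units.rank`, `NumberField.InfinitePlace.card_add_two_mul_card_eq_rank`). HD with `W = Fin r → ℚ`, `f` = the coordinates. -/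
def UNT_stmt : Prop := ∀ (K : Type) [Field K] [NumberField K] (H : Subgroup Kˣ),
  (∀ u ∈ H, IsIntegral ℤ (u : K)) → ∀ N : ℕ, Hi N H → N + 1 ≤ finrank ℚ K

/-- **TOR** (from HA, HB, DEG, UNT; commutative irreducible groups). `E = Algebra.adjoin ℚ (range ρ)`, commutative; for `x ∈ E` the kernel of `x` is
a `D`-submodule stable under all `ρ g`, so `x = 0` or `x` is injective: `E` is a number field, of degree `≤ d e` by DEG
(`Module.End D L` is finite dimensional over `ℚ`). `g ↦ ρ g ∈ Eˣ` is injective: HB, HA (4) give `Hi N` for the range; UNT. -/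
def TOR_stmt : Prop := ∀ (D : Type) [DivisionRing D] [Algebra ℚ D] [FiniteDimensional ℚ D] (d : ℕ),
  Algebra.IsCentral ℚ D → finrank ℚ D = d * d → ∀ (L : Type) [AddCommGroup L] [Module D L] [Module ℚ L]
    [IsScalarTower ℚ D L] [Module.Finite D L] [Nontrivial L] (Q : Type) [Group Q] (ρ : Q →* Module.End D L),
  Function.Injective ρ → (∀ g h, ρ g * ρ h = ρ h * ρ g) →
  (∀ W : Submodule D L, (∀ g, ∀ w ∈ W, ρ g w ∈ W) → W = ⊥ ∨ W = ⊤) → (∀ g, IsIntegral ℤ (ρ g)) →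
  ∀ N : ℕ, Hi N (⊤ : Subgroup Q) → N + 1 ≤ d * finrank D L

/-- **STR** (from `Z_MAL_stmt`). `K = AlgebraicClosure ℚ`, `V_K = K ⊗[ℚ] V`, `ρ_K g` = the base change of the `ℚ`-linear map `ρ g`. Z-MAL gives
`G₁` of finite index with `TriS (ρ_K restricted to G₁)`; with `W = ⊥`, `U = ⊤`: a common eigenvector `v ≠ 0`, `ρ_K g v = χ g • v`, `g ∈ G₁`,
`χ` multiplicative, so `ρ_K c v = v` for `c` in the commutator subgroup `C` of `G₁`. Expand `v = ∑ κ_i ⊗ v_i` with a `ℚ`-basis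
`κ` of `K`: all `v_i` are fixed by `C`, so `V^C = {w | ∀ c ∈ C, ρ c w = w} ≠ 0`, a `D`-submodule stable under `G₁` (`C` is normal in
`G₁`). `L` = a minimal nonzero `D`-submodule of `V^C` stable under `G₁`. -/
def STR_stmt : Prop := ∀ (D : Type) [DivisionRing D] [Algebra ℚ D] [FiniteDimensional ℚ D] (V : Type)
    [AddCommGroup V] [Module D V] [Module ℚ V] [IsScalarTower ℚ D V] [Module.Finite D V] [Nontrivial V]
    (Q : Type) [Group Q], Group.IsSolvable Q → ∀ ρ : Q →* Module.End D V,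
  ∃ (G₁ : Subgroup Q) (L : Submodule D V), G₁.FiniteIndex ∧ L ≠ ⊥ ∧ (∀ g ∈ G₁, ∀ w ∈ L, ρ g w ∈ L) ∧
    (∀ g ∈ G₁, ∀ h ∈ G₁, ∀ w ∈ L, ρ (g * h) w = ρ (h * g) w) ∧
    ∀ W : Submodule D V, W ≤ L → (∀ g ∈ G₁, ∀ w ∈ W, ρ g w ∈ W) → W = ⊥ ∨ W = L

/-- **STP** (from HA, HB, HD, TOR, STR; one step). `G₁`, `L` from STR, `e = dim_D L ≥ 1`. `Hi N ⊤` gives `Hi N G₁` (HA (3)) and
`Hi N ⊤` for the group `G₁` (HA (6)). `λ : G₁ →* (End_D L)ˣ`, `μ : G₁ →* (End_D (V ⧸ L))ˣ` (`MonoidHom.toHomUnits`). HB for `μ`, then HB for `λ` on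
`ker μ`: `N = a + c + b`. `b`: `Q' = μ.range` with the inclusion to `End_D (V ⧸ L)`: injective, solvable, integral
(`p (ρ g) = 0` gives `p (μ g) = 0`). `c + 1 ≤ d e`: TOR for the group `λ.range` (HA (1), (6)), `L` is simple by STR. `a`: `f x = ρ x - 1`
on `H = ker μ ⊓ ker λ` (as a subgroup of `G₁`) is additive, since `(ρ x - 1) (ρ y - 1) = 0`, and injective: HD with `W = End_D V`
(finite dimensional over `ℚ`); `S` = the span of the `ρ x - 1`, `x ∈ H`. -/
def STP_stmt : Prop := ∀ (D : Type) [DivisionRing D] [Algebra ℚ D] [FiniteDimensional ℚ D] (d : ℕ),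
  Algebra.IsCentral ℚ D → finrank ℚ D = d * d → ∀ (V : Type) [AddCommGroup V] [Module D V] [Module ℚ V]
    [IsScalarTower ℚ D V] [Module.Finite D V] [Nontrivial V] (Q : Type) [Group Q], Group.IsSolvable Q →
  ∀ ρ : Q →* Module.End D V, Function.Injective ρ → (∀ g, IsIntegral ℤ (ρ g)) → ∀ N : ℕ,
    Hi N (⊤ : Subgroup Q) →
  ∃ (G₁ : Subgroup Q) (L : Submodule D V) (a b c : ℕ), G₁.FiniteIndex ∧ L ≠ ⊥ ∧
    (∀ g ∈ G₁, ∀ w ∈ L, ρ g w ∈ L) ∧ a + b + c = N ∧ c + 1 ≤ d * finrank D L ∧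
    (∃ (Q' : Type) (_ : Group Q') (ρ' : Q' →* Module.End D (V ⧸ L)), Group.IsSolvable Q' ∧
      Function.Injective ρ' ∧ (∀ g, IsIntegral ℤ (ρ' g)) ∧ Hi b (⊤ : Subgroup Q')) ∧
    a ≤ finrank ℚ (Submodule.span ℚ {x : Module.End D V | ∃ g ∈ G₁, (∀ w ∈ L, ρ g w = w) ∧
      (∀ v, ρ g v - v ∈ L) ∧ x = ρ g - 1})

/-- **HOM**. `{x ∈ End_D V : x L = 0, x V ⊆ L}` has dimension `d² e (k - e)` over `ℚ` (`e = dim_D L`, `k = dim_D V`): it embeds in
`(V ⧸ L) →ₗ[D] L`, which is `(Fin (k - e)) → L` by a `D`-basis of `V ⧸ L` (`Basis.constr`), and `dim_ℚ L = d² e`. -/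
def HOM_stmt : Prop := ∀ (D : Type) [DivisionRing D] [Algebra ℚ D] [FiniteDimensional ℚ D] (V : Type)
    [AddCommGroup V] [Module D V] [Module ℚ V] [IsScalarTower ℚ D V] [Module.Finite D V]
    (L : Submodule D V) (S : Set (Module.End D V)),
  (∀ x ∈ S, (∀ w ∈ L, x w = 0) ∧ ∀ v, x v ∈ L) →
  finrank ℚ (Submodule.span ℚ S) ≤ finrank ℚ D * (finrank D L * finrank D (V ⧸ L))

/-- **BND** (from HA, STP, HOM; the bound `d² k (k-1) / 2 + k (d - 1)`, `k = dim_D V`). Induction on `k`. `k = 0`: `Q` is trivial, HA (4).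
`k > 0`: STP; `e = dim_D L ≥ 1`, `k = e + k'`, `a ≤ d² e k'` (HOM), `c + 1 ≤ d e`, `2 b + d² k' + 2 k' ≤ d² k'² + 2 k' d` (induction). The
difference of both sides is `≥ (e - 1) (d² e - 2) ≥ 0`. -/
def BND_stmt : Prop := ∀ (D : Type) [DivisionRing D] [Algebra ℚ D] [FiniteDimensional ℚ D] (d : ℕ),
  Algebra.IsCentral ℚ D → finrank ℚ D = d * d → ∀ (V : Type) [AddCommGroup V] [Module D V] [Module ℚ V]
    [IsScalarTower ℚ D V] [Module.Finite D V] (Q : Type) [Group Q], Group.IsSolvable Q →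
  ∀ ρ : Q →* Module.End D V, Function.Injective ρ → (∀ g, IsIntegral ℤ (ρ g)) → ∀ N : ℕ,
    Hi N (⊤ : Subgroup Q) →
  2 * N + d * d * finrank D V + 2 * finrank D V ≤ d * d * finrank D V * finrank D V + 2 * finrank D V * d

/-- **CSB** (from BND). `V = Fin k → D`, `ρ g = Matrix.toLinearMapRight' (φ g⁻¹)` (row vectors, `v ↦ v ᵥ* φ g⁻¹`), which is left `D`-linear
and a homomorphism; integral: `p (φ g⁻¹) = 0`. -/
def CSB_stmt : Prop := ∀ (D : Type) [DivisionRing D] [Algebra ℚ D] [FiniteDimensional ℚ D] (d k : ℕ),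
  Algebra.IsCentral ℚ D → finrank ℚ D = d * d → ∀ (Q : Type) [Group Q], Group.IsSolvable Q →
  ∀ φ : Q →* Matrix (Fin k) (Fin k) D, Function.Injective φ → (∀ g, IsIntegral ℤ (φ g)) → ∀ N : ℕ,
    Hi N (⊤ : Subgroup Q) → 2 * N + d * d * k + 2 * k ≤ d * d * k * k + 2 * k * d

/-- **WED** (Wedderburn). `IsSimpleRing.exists_algEquiv_matrix_divisionRing_finite`; an element `z` of the centre of `D` gives the scalar matrix
`z` in the centre of the matrix ring. `n² = k² dim D`, so `k ∣ n`. -/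
def WED_stmt : Prop := ∀ (R : Type) [Ring R] [Algebra ℚ R] [FiniteDimensional ℚ R] [IsSimpleRing R] (n : ℕ),
  Algebra.IsCentral ℚ R → finrank ℚ R = n * n →
  ∃ (k d : ℕ) (D : Type) (_ : DivisionRing D) (_ : Algebra ℚ D), FiniteDimensional ℚ D ∧
    Algebra.IsCentral ℚ D ∧ finrank ℚ D = d * d ∧ n = d * k ∧ Nonempty (R ≃ₐ[ℚ] Matrix (Fin k) (Fin k) D)

/-- the `ℚ`-algebra generated by the `p`-adic representation -/
noncomputable def AL {n : ℕ} {Λ : Type} [Group Λ] (f : Fam n Λ) (p : Nat.Primes) :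
    Subalgebra ℚ (Matrix (Fin n) (Fin n) ℚ_[(p : ℕ)]) := Algebra.adjoin ℚ (Set.range fun l => qM (f p l))

/-- the element of `AL f p` given by a group element -/
noncomputable def al {n : ℕ} {Λ : Type} [Group Λ] (f : Fam n Λ) (p : Nat.Primes) (l : Λ) : AL f p :=
  ⟨qM (f p l), Algebra.subset_adjoin ⟨l, rfl⟩⟩

/-- **CSA** (from `LSPAN_stmt`, `LINT_stmt`). `A = AL f p` is the `ℚ`-span of the range (`Algebra.adjoin_eq_span_of_submonoid` or similar). Choose
`l_1, ..., l_{n²}` with `ρ(l_i) = qM (f p l_i)` a basis of the matrices over `F = ℚ_p` (LSPAN). The matrix `T = (trace ρ(l_i l_j))` is integral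
(LINT) and invertible (the trace form is nondegenerate); `x = ∑ c_i ρ(l_i)` with `c = T⁻¹ (trace (x ρ(l_j)))_j`, so
`c_i ∈ ℚ` for `x ∈ A`: the `ρ(l_i)` are a `ℚ`-basis of `A`. (So `ℚ`-independent elements of `A` are `F`-independent.) Simple: for a
two-sided ideal `I ≠ 0` of `A` the `F`-span of `I` is a two-sided ideal of the simple ring of matrices, so it is everything, `dim_ℚ I = n²`.
Central: `x` in the centre commutes with all matrices, `x = c • 1`, and `1`, `x` are `F`-dependent, so `ℚ`-dependent. Integral: the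
`ℤ`-span `O` of the range is a ring contained in `{x ∈ A : trace (x ρ(l_j)) ∈ ℤ for all j}`, which is a finitely generated `ℤ`-module (`≅ ℤ^{n²}`);
`IsIntegral` of the elements of `O` (`IsIntegral.of_mem_of_fg` for the subring, or `x` acts on the finitely generated `O`). -/
def CSA_stmt : Prop := ∀ (n : ℕ), 3 ≤ n → ∀ (Λ : Type) [Group Λ], Group.FG Λ → QuotLe Λ (SLZ n) →
  ∀ (f : Fam n Λ), (∀ q, (Set.range (f q)).Infinite) → ∀ p : Nat.Primes,
  FiniteDimensional ℚ (AL f p) ∧ finrank ℚ (AL f p) = n * n ∧ IsSimpleRing (AL f p) ∧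
    Algebra.IsCentral ℚ (AL f p) ∧ (∀ l : Λ, IsIntegral ℤ (al f p l)) ∧
    ∀ x ∈ AL f p, x ∈ Submodule.span ℚ (Set.range fun l => qM (f p l))

/-- **SPL** (a matrix algebra of full size contains an element of rank one). The images `e_i` of `single i i 1` are idempotent with sum `1`;
`e_i = u_ij u_ji`, `e_j = u_ji u_ij` (images of `single i j 1`), so they have the same rank `r`; the trace of an idempotent is its rank
(characteristic zero), so `n r = n`. -/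
def SPL_stmt : Prop := ∀ (n : ℕ), 1 ≤ n → ∀ (F : Type) [Field F] [CharZero F] (R D : Type) [Ring R] [Ring D] [Nontrivial D]
  (ψ : R →+* Matrix (Fin n) (Fin n) F), Nonempty (R ≃+* Matrix (Fin n) (Fin n) D) → ∃ x : R, (ψ x).rank = 1

/-- **NRO** (spaces without elements of rank one). `W` meets `{x : range x ≤ ⟨v⟩}` (`v ≠ 0`, dimension `dim M`) and `{x : ker x ≥ H}` (`H` a
hyperplane, dimension `dim L`) only in `0`. -/
def NRO_stmt : Prop := ∀ (M L : Type) [AddCommGroup M] [Module ℚ M] [FiniteDimensional ℚ M] [Nontrivial M]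
  [AddCommGroup L] [Module ℚ L] [FiniteDimensional ℚ L] [Nontrivial L] (W : Submodule ℚ (M →ₗ[ℚ] L)),
  (∀ x ∈ W, finrank ℚ (LinearMap.range x) ≠ 1) →
  finrank ℚ W + max (finrank ℚ M) (finrank ℚ L) ≤ finrank ℚ M * finrank ℚ L

/-- **KTU** (from HA; a commuting element). `Z = ρ z - 1`, `Z Z = 0`. `N = {x ∈ G₁ : x = 1 on L and on V ⧸ L}` is abelian (`(ρ x - 1) (ρ y - 1) = 0`),
normal in `G₁`, contains `z`. (A) Some `u ∈ N` has no positive power in `⟨z⟩`: it commutes with `z`, done. (B) Otherwise let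
`g ∈ G₁`: `g z g⁻¹ ∈ N`, `(g z g⁻¹) ^ k = z ^ m`, `k > 0`, so `k • ρ g Z ρ g⁻¹ = m • Z`. `Z = v ⊗ φ` (`v` spans the range, `Z w = φ w • v`):
`ρ g v = α v`, `φ ∘ ρ g = β φ` with `α`, `β` rational; both are roots of a monic integral polynomial that kills `ρ g`, and `α⁻¹`, `β⁻¹` of one that
kills `ρ g⁻¹`, so `α, β = ±1`. So `ρ g Z ρ g⁻¹ = ± Z` and `g ^ 2` commutes with `z` (`ρ` is injective). If all `g ^ 2`, `g ∈ G₁`, had a positive
power in `⟨z⟩` then so would all `g ∈ G₁`, contradiction to HA (5) and `Hi 2 G₁`. -/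
def KTU_stmt : Prop := ∀ (V : Type) [AddCommGroup V] [Module ℚ V] [FiniteDimensional ℚ V] (Q : Type) [Group Q]
  (ρ : Q →* Module.End ℚ V), Function.Injective ρ → (∀ g, IsIntegral ℤ (ρ g)) → ∀ (G₁ : Subgroup Q)
  (L : Submodule ℚ V), (∀ g ∈ G₁, ∀ w ∈ L, ρ g w ∈ L) → Hi 2 G₁ → ∀ z ∈ G₁, (∀ w ∈ L, ρ z w = w) →
  (∀ v, ρ z v - v ∈ L) → finrank ℚ (LinearMap.range (ρ z - 1)) = 1 →
  ∃ u : Q, z * u = u * z ∧ ∀ k : ℕ, 0 < k → ∀ m : ℤ, u ^ k ≠ z ^ m

/-- **KT** (from HA, STP, BND, NRO, KTU; the split case). STP for `D = ℚ`, `d = 1` (`Module.End ℚ V`; `Algebra.IsCentral ℚ ℚ`); `e = dim L`,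
`m = n - e`; BND for `Q'`: `2 b + m ≤ m ^ 2`; `c + 1 ≤ e`. `Hi N G₁` (HA (3)), `N ≥ 2`. Let `S` be the span in STP. If `e = n`: `V ⧸ L = 0`, so
all elements `x` of the set in STP are `0` (`x V ⊆ L` is no condition; `x L = 0` gives `x = 0`), `a = 0`, `b = 0`, `N ≤ n - 1`, a contradiction. Let
`e < n`. If `S` has an element of rank one then (clear denominators; the set in STP is closed under addition, it is
`{ρ g - 1}` for `g` in a group, `(ρ g - 1) + (ρ h - 1) = ρ (g h) - 1`) some `z ∈ G₁` as in STP has `rank (ρ z - 1) = 1`: KTU, `t = z`. Otherwise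
NRO for the image of `S` in `(V ⧸ L) →ₗ L`: `a + max m e ≤ m e`, and `2 N ≤ 2 m e - 2 max m e + 2 (e - 1) + m (m - 1) ≤ (n - 1) (n - 2) + 2`
(the difference is `≥ (e - 2) (e - 3)`), a contradiction. -/
def KT_stmt : Prop := ∀ (n : ℕ), 3 ≤ n → ∀ (V : Type) [AddCommGroup V] [Module ℚ V] [FiniteDimensional ℚ V],
  finrank ℚ V = n → ∀ (Q : Type) [Group Q], Group.IsSolvable Q → ∀ ρ : Q →* Module.End ℚ V,
  Function.Injective ρ → (∀ g, IsIntegral ℤ (ρ g)) → ∀ N : ℕ, (n - 1) * (n - 2) + 2 < 2 * N →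
  Hi N (⊤ : Subgroup Q) → ∃ t u : Q, t * u = u * t ∧ finrank ℚ (LinearMap.range (ρ t - 1)) = 1 ∧
    ∀ k : ℕ, 0 < k → ∀ m : ℤ, u ^ k ≠ t ^ m

/-! ### Exclusion of the division algebras of degree two and three -/

/-- **CHM** (from `TRACE_stmt`, `LSPAN_stmt`, `LKEY_stmt`; comparison of two primes). TRACE for `f p`, `f q` gives `t : Λ → ℚ`. If
`trace (f q l) = t l` put `s = f q`, otherwise `s l` = the transpose of `f q l⁻¹`; in both cases `trace (s l) = t l`, the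
`ℚ_q`-span of the `qM (s l)` is everything (LSPAN) and the density holds (LKEY with `A` at `q` (in the second case the transpose of
`A⁻¹`, i.e. of the adjugate) and `1` at the other primes). If `x = ∑ c_l l` in the group algebra `MonoidAlgebra ℚ Λ` is mapped to `0` by `l ↦ qM (f p l)`
then `∑ c_l t (l μ) = 0` for all `μ`, so `trace (s(x) s(μ)) = 0` for all `μ`, so `s(x) = 0`. Hence `qM (f p l) ↦ qM (s l)` extends to an
algebra homomorphism on `AL f p`. -/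
def CHM_stmt : Prop := ∀ (n : ℕ), 3 ≤ n → ∀ (Λ : Type) [Group Λ], Group.FG Λ → QuotLe Λ (SLZ n) →
  ∀ (f : Fam n Λ), (∀ q, (Set.range (f q)).Infinite) → ∀ p q : Nat.Primes,
  ∃ (s : Λ →* GL (Fin n) ℤ_[(q : ℕ)]) (ψ : AL f p →ₐ[ℚ] Matrix (Fin n) (Fin n) ℚ_[(q : ℕ)]),
    (∀ l, ψ (al f p l) = qM (s l)) ∧
    (∀ x : AL f p, ∃ t : ℚ, (x : Matrix (Fin n) (Fin n) ℚ_[(p : ℕ)]).trace = (t : ℚ_[(p : ℕ)]) ∧
      (ψ x).trace = (t : ℚ_[(q : ℕ)])) ∧
    ∀ A : Matrix (Fin n) (Fin n) ℤ_[(q : ℕ)], A.det = 1 → ∀ m : ℕ, m ≠ 0 → ∃ l : Λ,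
      MC m (s l : Matrix (Fin n) (Fin n) ℤ_[(q : ℕ)]) A

/-- **CON** (conics without the real place). Strong induction on `|a| + |b|`. If `a = c² a'` (or `b = c² b'`), `|c| ≥ 2`, pass to `a'`
(scale `x`). Let `a`, `b` be squarefree, `|a| ≤ |b|` (symmetry). `|b| = 1`: if `a = 1` or `b = 1` it is clear; `(-1, -1)`:
`x² + y² + z² = 0` has only the zero solution in `ℚ_2` (scale to a primitive solution in `ℤ_2`, modulo `4`). `|b| ≥ 2`: for a prime `q ∣ b` scale the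
solution in `ℚ_q` to be integral and primitive; if `q ∣ x` then `q ∣ z`, `q² ∣ b y²`, `q ∣ y`, contradiction; so `a` is a square
modulo `q`; by the Chinese remainder theorem `a ≡ t²` modulo `b`, `|t| ≤ |b| / 2`; `t² - a = b b'`. If `b' = 0`: `(1, 0, t)`. Otherwise
`|b'| ≤ |b| / 4 + 1 < |b|`, and solutions of `z² = a x² + b y²` give solutions of `z² = a x² + b' y²` and conversely (over any field):
`(z t + a x)² - a (z + t x)² = (t² - a) (z² - a x²) = b b' (z² - a x²)` (if `y = 0` keep the solution). -/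
def CON_stmt : Prop := ∀ a b : ℤ, a ≠ 0 → b ≠ 0 →
  (∀ (q : ℕ) [Fact q.Prime], ∃ x y z : ℚ_[q], (x ≠ 0 ∨ y ≠ 0 ∨ z ≠ 0) ∧ z ^ 2 = a * x ^ 2 + b * y ^ 2) →
  ∃ x y z : ℤ, (x ≠ 0 ∨ y ≠ 0 ∨ z ≠ 0) ∧ z ^ 2 = a * x ^ 2 + b * y ^ 2

/-- **QUA** (quaternion algebras). Take `x ∈ D`, `x ∉ ℚ`; `ℚ(x)` is commutative, so it is not `D`, `dim_ℚ D = 4 = [ℚ(x) : ℚ] dim_{ℚ(x)} D`,
so `[ℚ(x) : ℚ] = 2`; complete the square and scale: `i ∈ D`, `i² = a ∈ ℤ`, `i ∉ ℚ`. Conjugation by `i` has square `1`, so `D = D₊ ⊕ D₋`, and `D₋ ≠ 0`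
since `i` is not central: `0 ≠ j ∈ D₋`, `i j = - j i`. `1, i, j, ij` are linearly independent, so a basis; `j²` commutes with `i` and `j`, so it is
central; scale `j`. If `z² = a x² + b y²` then `(z + x i + y j) (z - x i - y j) = 0`, so `x = y = z = 0`. -/
def QUA_stmt : Prop := ∀ (D : Type) [DivisionRing D] [Algebra ℚ D] [FiniteDimensional ℚ D],
  Algebra.IsCentral ℚ D → finrank ℚ D = 4 → ∃ (i j : D) (a b : ℤ), a ≠ 0 ∧ b ≠ 0 ∧ i * i = a ∧ j * j = b ∧
    i * j = -(j * i) ∧ ∀ x y z : ℤ, z ^ 2 = a * x ^ 2 + b * y ^ 2 → x = 0 ∧ y = 0 ∧ z = 0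

/-- **BLK** (a representation of `D` of dimension `d` from one of `M_k(D)` of dimension `d k`). `E` = the image of `single 0 0 1`, idempotent, of rank
`d` (the `k` idempotents `single i i 1` have equal ranks and sum `1`, see SPL); `D` acts on the range of `E` by
`single 0 0 x`. The trace: `single 0 0 x` maps to `E X E`, whose trace is the trace on the range of `E`. -/
def BLK_stmt : Prop := ∀ (F : Type) [Field F] [CharZero F] (D : Type) [Ring D] [Nontrivial D] (d k : ℕ) (hk : 0 < k)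
  (Ψ : Matrix (Fin k) (Fin k) D →+* Matrix (Fin (d * k)) (Fin (d * k)) F),
  ∃ φ : D →+* Matrix (Fin d) (Fin d) F, ∀ x : D, (φ x).trace = (Ψ (Matrix.single ⟨0, hk⟩ ⟨0, hk⟩ x)).trace

/-- **NOB** (from CHM, CON, QUA, BLK; no quaternion algebra). Let `AL f p ≃ M_k(D)`, `dim D = 4`, so `n = 2 k`. `i, j, a, b` from QUA. For every prime `q`
(CHM, BLK) `D` acts on `ℚ_q²` by `I`, `J`; fix `w ≠ 0`; the linear map `(x, y, z) ↦ z w + x I w + y J w` from a space of dimension three to one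
of dimension two has a kernel, and `(z - x I - y J) (z + x I + y J) w = (z² - a x² - b y²) w`. CON gives a contradiction. -/
def NOB_stmt : Prop := ∀ (n : ℕ), 3 ≤ n → ∀ (Λ : Type) [Group Λ], Group.FG Λ → QuotLe Λ (SLZ n) →
  ∀ (f : Fam n Λ), (∀ q, (Set.range (f q)).Infinite) → ∀ (p : Nat.Primes) (k : ℕ) (D : Type) [DivisionRing D]
    [Algebra ℚ D] [FiniteDimensional ℚ D], Algebra.IsCentral ℚ D → finrank ℚ D = 4 → n = 2 * k →
  ¬ Nonempty (AL f p ≃ₐ[ℚ] Matrix (Fin k) (Fin k) D)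

/-- the maximal order: the elements whose images under all `ψ q` have entries in `ℤ_q` -/
noncomputable def OO {n : ℕ} {R : Type} [Ring R] [Algebra ℚ R]
    (ψ : (q : Nat.Primes) → R →ₐ[ℚ] Matrix (Fin n) (Fin n) ℚ_[(q : ℕ)]) : Subring R :=
  ⨅ q : Nat.Primes, ((PadicInt.subring (q : ℕ)).matrix (n := Fin n)).comap (ψ q : R →+* _)

/-- **ORA** (the maximal order; to be used for `R ≃ AL f p`). `R` is a `ℚ`-algebra of dimension `n²`, spanned by the range of `σ : Λ →* R`,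
`ψ q (σ l) = qM (s q l)`, the `s q l` are dense modulo every `m` among the matrices of determinant `1`, and `τ` is the trace of `ψ q x` for every `q`.
(1) clear. (2): the trace of `ψ q x` is in `ℤ_q` for all `q`, and a rational number integral at all `q` is an integer. (3): fix `q`, `x`;
`q ^ m • ψ q x` is integral for some `m`. Each `B ∈ M_n(ℤ_q)` with `det B = 1` is `≡ s q l` modulo `q ^ m` for some `l`, and `τ (x σ l) ∈ ℤ`, so
`trace (ψ q x * B) ∈ ℤ_q`; take `B = 1`, `1 + E_ij`, `(1 + E_ij) (1 + E_ji)`: all entries of `ψ q x` are in `ℤ_q`. (4): the `ℚ_q`-span of the `ψ q (σ l)` is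
everything (density, see the docstring of `LSPAN_stmt`), so `ψ q` maps a `ℚ`-basis `σ l_i` of `R` to a `ℚ_q`-basis; `ψ q` is injective and
`x ↦ (τ (x σ(l_i)))_i` is injective; it maps `OO ψ` to `ℤ^{n²}` by (1), (2). -/
def ORA_stmt : Prop := ∀ (n : ℕ), 2 ≤ n → ∀ (Λ : Type) [Group Λ] (R : Type) [Ring R] [Algebra ℚ R]
  [FiniteDimensional ℚ R] (σ : Λ →* R) (ψ : (q : Nat.Primes) → R →ₐ[ℚ] Matrix (Fin n) (Fin n) ℚ_[(q : ℕ)])
  (s : (q : Nat.Primes) → Λ →* GL (Fin n) ℤ_[(q : ℕ)]) (τ : R → ℚ), finrank ℚ R = n * n →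
  Submodule.span ℚ (Set.range σ) = ⊤ → (∀ (q : Nat.Primes) (l : Λ), ψ q (σ l) = qM (s q l)) →
  (∀ (q : Nat.Primes) (x : R), (ψ q x).trace = (τ x : ℚ_[(q : ℕ)])) →
  (∀ q : Nat.Primes, ∀ A : Matrix (Fin n) (Fin n) ℤ_[(q : ℕ)], A.det = 1 → ∀ m : ℕ, m ≠ 0 → ∃ l : Λ,
    MC m (s q l : Matrix (Fin n) (Fin n) ℤ_[(q : ℕ)]) A) →
  (∀ l, σ l ∈ OO ψ) ∧ (∀ x ∈ OO ψ, ∃ z : ℤ, τ x = z) ∧
  (∀ x : R, (∀ y ∈ OO ψ, ∃ z : ℤ, τ (x * y) = z) → x ∈ OO ψ) ∧
  ∃ M : Submodule ℤ R, M.FG ∧ ∀ x, x ∈ M ↔ x ∈ OO ψ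

/-- trace of left multiplication by `x` on `D` over `ℚ` -/
noncomputable def tra {D : Type} [Ring D] [Algebra ℚ D] (x : D) : ℚ := LinearMap.trace ℚ D (LinearMap.mulLeft ℚ x)

/-- determinant of left multiplication by `x` on `D` over `ℚ` -/
noncomputable def nor {D : Type} [Ring D] [Algebra ℚ D] (x : D) : ℚ := LinearMap.det (LinearMap.mulLeft ℚ x)

/-- **ORD** (the order of `D`). `R = M_k(D)`, `e = single 0 0 1`, `ε x = single 0 0 x`; `X = {a ∈ O : e a = a}`, a finitely generated `ℤ`-module; for every `a ∈ R` some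
`N ≥ 1` has `N a ∈ O`. `O_D = {y ∈ D : ε y X ⊆ X}`, a subring. Finitely generated over `ℤ`: `y ↦ ε y a₀` is injective for `0 ≠ a₀ ∈ X`, with
values in `X`. It spans `D`: for `y ∈ D` some multiple has `ε (N y) X ⊆ O` (`X` is finitely generated). Self-dual: let `τ (ε (y z)) ∈ ℤ` for all `z ∈ O_D`.
For `a ∈ X`, `b ∈ O`: `a b e = ε z` for some `z`, and `ε z X = a b X ⊆ X`, so `z ∈ O_D`; `τ (ε y a b) = τ (e ε y a b) = τ (ε y (a b e)) = τ (ε (y z)) ∈ ℤ`
for all `b ∈ O`, so `ε y a ∈ O`, `ε y a ∈ X`; so `y ∈ O_D`. Integral: `y ∈ O_D` is integral over `ℤ` (it acts faithfully on the finitely generated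
group `X`), so `τ (ε y) ∈ ℤ` by the last hypothesis. Let `x` be a `ℤ`-basis of `O_D` (it is a `ℚ`-basis of `D`), `T_ij = τ (ε (x_i x_j))`. It is invertible over `ℚ`
(`τ (ε (y y⁻¹)) = d ≠ 0`), the dual basis `∑ (T⁻¹)_ij x_j` is in `O_D` by self-duality, so `T⁻¹` is integral. -/
def ORD_stmt : Prop := ∀ (k d : ℕ) (hk : 0 < k) (D : Type) [DivisionRing D] [Algebra ℚ D] [FiniteDimensional ℚ D]
  (τ : Matrix (Fin k) (Fin k) D →ₗ[ℚ] ℚ) (O : Subring (Matrix (Fin k) (Fin k) D)), finrank ℚ D = d * d →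
  0 < d → (∀ x y : Matrix (Fin k) (Fin k) D, τ (x * y) = τ (y * x)) →
  (∃ M : Submodule ℤ (Matrix (Fin k) (Fin k) D), M.FG ∧ ∀ x, x ∈ M ↔ x ∈ O) →
  Submodule.span ℚ (O : Set (Matrix (Fin k) (Fin k) D)) = ⊤ →
  (∀ x : Matrix (Fin k) (Fin k) D, (∀ y ∈ O, ∃ z : ℤ, τ (x * y) = z) → x ∈ O) →
  (∀ x : D, (d : ℚ) * τ (Matrix.single ⟨0, hk⟩ ⟨0, hk⟩ x) = tra x) →
  (∀ x : D, IsIntegral ℤ x → ∃ z : ℤ, τ (Matrix.single ⟨0, hk⟩ ⟨0, hk⟩ x) = z) →
  ∃ (x : Fin (d * d) → D) (T : Matrix (Fin (d * d)) (Fin (d * d)) ℤ), LinearIndependent ℚ x ∧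
    (∀ i j, ∃ c : Fin (d * d) → ℤ, x i * x j = ∑ l, c l • x l) ∧
    (∀ i j, tra (x i * x j) = d * T i j) ∧ T.det ^ 2 = 1

/-- **TRC** (from LIN; reduced traces). Let `x_i` be a `ℚ`-basis of `D`; by LIN the `φ(x_i)` are a basis of `M_d(F)` over `F`. Left multiplication by `φ x` on
`M_d(F)` has in this basis the matrix of left multiplication by `x` on `D`; its trace is `d trace (φ x)` and its determinant is
`(det (φ x)) ^ d`. -/
def TRC_stmt : Prop := ∀ (D : Type) [DivisionRing D] [Algebra ℚ D] [FiniteDimensional ℚ D] (d : ℕ),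
  Algebra.IsCentral ℚ D → finrank ℚ D = d * d → ∀ (F : Type) [Field F] [CharZero F]
    (φ : D →+* Matrix (Fin d) (Fin d) F) (x : D),
  (d : F) * (φ x).trace = (tra x : F) ∧ (φ x).det ^ d = (nor x : F)

/-- **RLT** (from DEG or LIN; a real representation in degree three). Take `x ∈ D`, `x ∉ ℚ`, `K = ℚ(x)`: `9 = [K : ℚ] dim_K D`, `[K : ℚ] = 3` (it is not `9` since `D` is not
commutative). `K → ℝ` exists (the minimal polynomial of `x` has odd degree, so a real root). `D` is a right `K`-space of dimension `3`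
(or left over `K`, `D` acting by `b ↦ b a⁻¹`.. use left multiplication by `D` and right multiplication by `K`), which gives `D → M_3(K) → M_3(ℝ)`. -/
def RLT_stmt : Prop := ∀ (D : Type) [DivisionRing D] [Algebra ℚ D] [FiniteDimensional ℚ D],
  Algebra.IsCentral ℚ D → finrank ℚ D = 9 → Nonempty (D →+* Matrix (Fin 3) (Fin 3) ℝ)

/-- **VOL** (volume of the convex body `{v ∈ (ℝ³)³ : ‖v_1‖ + ‖v_2‖ + ‖v_3‖ < 3}`, it is `(8π)³ 3⁹ / 9! = 861.1.. > 512`).
Proof: `MeasureTheory.measure_lt_one_eq_integral_div_gamma` (or `measure_le_eq_lt`; see its use in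
`Mathlib/MeasureTheory/Measure/Lebesgue/VolumeOfBalls.lean`) with `g v = (‖v 1‖ + ‖v 2‖ + ‖v 3‖) / 3`, `p = 1`: the volume of `{g < 1}` is
`(∫ exp (- g)) / Γ(10)`, the integral is the cube of `∫_{ℝ³} exp (-‖v‖ / 3) = 27 * 8π` (the same theorem for one factor and the volume `4π/3` of the
ball, `EuclideanSpace.volume_ball`: `∫ exp (-‖v‖) = Γ(4) 4π/3 = 8π`), and `π > 3.14`. -/
def VOL_stmt : Prop := (512 : ENNReal) < MeasureTheory.volume
  {v : Fin 3 → EuclideanSpace ℝ (Fin 3) | ‖v 0‖ + ‖v 1‖ + ‖v 2‖ < 3}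

/-- **MIN** (from VOL; Minkowski). The lattice `Λ` generated by the `X i` in `E = Fin 3 → EuclideanSpace ℝ (Fin 3)` (columns) has covolume
`|det C|`, `C` the `9 x 9` matrix of the coordinates of the `X i`; the Gram matrix is `C P Cᵀ` with the permutation matrix `P` of the
transposition, so `|det C|² = |det Gram| ≤ 1`. VOL and `MeasureTheory.exists_ne_zero_mem_lattice_of_measure_mul_two_pow_lt_measure` give a nonzero `x` in the lattice with
`‖x_1‖ + ‖x_2‖ + ‖x_3‖ < 3` (symmetric, convex); `|det x| ≤ ‖x_1‖ ‖x_2‖ ‖x_3‖` (Hadamard: `Orientation.abs_volumeForm_apply_le`) `< 1` by AM-GM. -/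
def MIN_stmt : Prop := ∀ X : Fin 9 → Matrix (Fin 3) (Fin 3) ℝ,
  (Matrix.of fun i j => (X i * X j).trace).det ^ 2 = 1 →
  ∃ c : Fin 9 → ℤ, c ≠ 0 ∧ |(∑ i, c i • X i).det| < 1

/-- **NOC** (from CSA, CHM, BLK, ORA, ORD, TRC, RLT, MIN; no division algebra of degree three). Let `e : AL f p ≃ M_k(D)`, `dim D = 9`, `n = 3 k`. `ψ q` from CHM (for all `q`, the same rational `t`:
`ℚ → ℚ_p` is injective), `τ x = t`. ORA, then ORD for the image of `O` (hypotheses: `τ (single 0 0 x)` is `trace (φ x)` with `φ` from BLK for `q = 2`, say,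
and TRC; if `x` is integral then `trace (φ x)` is rational and integral, so an integer). `φ : D → M_3(ℝ)` from RLT; `X i = φ (x i)`,
`trace (X i * X j) = T i j` by TRC. MIN: `y = ∑ c i • x i ≠ 0`, `|det (φ y)| < 1`; by TRC `(det (φ y))³ = norm y`, which is a
nonzero integer (left multiplication by `y` has an integer matrix in the basis `x`, `y` is invertible), a contradiction. -/
def NOC_stmt : Prop := ∀ (n : ℕ), 3 ≤ n → ∀ (Λ : Type) [Group Λ], Group.FG Λ → QuotLe Λ (SLZ n) →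
  ∀ (f : Fam n Λ), (∀ q, (Set.range (f q)).Infinite) → ∀ (p : Nat.Primes) (k : ℕ) (D : Type) [DivisionRing D]
    [Algebra ℚ D] [FiniteDimensional ℚ D], Algebra.IsCentral ℚ D → finrank ℚ D = 9 → n = 3 * k →
  ¬ Nonempty (AL f p ≃ₐ[ℚ] Matrix (Fin k) (Fin k) D)

/-- **FIN** (assembly). -/
def FIN_stmt : Prop := ∀ (n : ℕ), 3 ≤ n → ∀ (Λ : Type) [Group Λ], Group.FG Λ → QuotLe Λ (SLZ n) →
  QuotLe (SLZ n) Λ → RF Λ → ∀ (P : Subgroup Λ) (N : ℕ), Group.IsSolvable P → Hi N P →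
  (n - 1) * (n - 2) + 2 < 2 * N → (4 ∣ n → 2 * n * n < 4 * N + 5 * n) → Nonempty (Λ ≃* SLZ n)

end Pool.Agent.SHL
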