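import Pool.Agent.helper48.PR.AsmL
import Pool.Agent.helper3.PR.Z_FC
import Pool.Agent.helper50.PR.Z_STAB
import Pool.Agent.helper73.PR.Z_MAL1
import Pool.Agent.helper38.PR.Z_MAL
import Pool.Agent.helper23.SHL.HA
import Pool.Agent.helper42.SHL.HB
import Pool.Agent.helper97.SHL.HD
import Pool.Agent.helper97.SHL.LIN
import Pool.Agent.helper97.SHL.TRC
import Pool.Agent.helper97.SHL.CHM
import Pool.Agent.helper97.SHL.NOB
import Pool.Agent.helper23.SHL.DEG
import Pool.Agent.helper63.SHL.UNT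
import Pool.Agent.helper63.SHL.KT
import Pool.Agent.helper49.SHL.TOR
import Pool.Agent.helper59.SHL.STR
import Pool.Agent.helper59.SHL.SPL
import Pool.Agent.helper79.SHL.STP
import Pool.Agent.helper19.SHL.HOM
import Pool.Agent.helper30.SHL.BND
import Pool.Agent.helper43.SHL.CSB
import Pool.Agent.helper44.SHL.WED
import Pool.Agent.helper99.SHL.CSA
import Pool.Agent.helper56.SHL.NRO
import Pool.Agent.helper6.SHL.KTU
import Pool.Agent.helper93.SHL.CONIC
import Pool.Agent.helper55.SHL.QUA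
import Pool.Agent.helper91.SHL.BLK
import Pool.Agent.helper78.SHL.ORA
import Pool.Agent.helper81.SHL.ORD

/-!
Project shl: assembly of the rows.
-/

set_option autoImplicit false

namespace Pool.Agent.SHL

open Pool.Agent.PR

theorem sMAL : Z_MAL_stmt := Z_MAL (Z_MAL1 Z_FC Z_STAB)
theorem tDEG : DEG_stmt := DEG LIN
theorem tUNT : UNT_stmt := UNT HD
theorem tTOR : TOR_stmt := TOR HA HB tDEG tUNT
theorem tSTR : STR_stmt := STR sMAL
theorem tSTP : STP_stmt := STP HA HB HD tTOR tSTR
theorem tBND : BND_stmt := BND HA tSTP HOM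
theorem tCSB : CSB_stmt := CSB tBND
theorem tKTU : KTU_stmt := KTU HA
theorem tKT : KT_stmt := KT HA tSTP tBND NRO tKTU
theorem tCSA : CSA_stmt := CSA tLSPAN tLINT
theorem tCHM : CHM_stmt := CHM tTRACE tLSPAN tLKEY
theorem tTRC : TRC_stmt := TRC LIN
theorem tNOB : NOB_stmt := NOB tCHM CON QUA BLK

end Pool.Agent.SHL
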